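import Pool.Agent.X42.HalfPair

set_option autoImplicit false

/-!
# `1/2`-flow-pairs and even subgraphs in graphs with arbitrary degrees (MP_e59a69_co)

Let `G` be a multigraph and let `F` be a set of edges in which all degrees are even.

(1) If `G` is bridgeless and at most two components of `(V, F)` (isolated vertices are components)
contain an odd number of vertices which have odd degree in `G`, then `F` is the support of `φ₂` for
some `1/2`-flow-pair `(φ₂, φ₄)` if and only if `F` meets all edge cuts with three edges.

(2) Let `U` be a set of vertices such that in every component of `(V, F)` the number of the vertices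
for which exactly one of the two statements (the degree in `G` is odd; the vertex is in `U`) holds
is even; for example one vertex in each of the components as in (1).  Let `τ` be a pairing of `U`,
and for a vertex set `X` let `q` be the number of pairs with exactly one end in `X`.  If
`5 q ≤ |δ(X)| + 1` for all `X` with fewer than `2 q` edges of `F` in `δ(X)`, then `F` is the support
of `φ₂` for some `1/2`-flow-pair.

The starting files `OddnessTwo` and `CutPairing` treat cubic graphs and 2-factors `F`.

Proof.  There is a set `B ⊆ F` such that all degrees of `(E \ F) ∪ B`, together with one further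
edge for every pair of `U`, are even.  An Eulerian orientation of this graph orients `E \ F` such
that the excess of every vertex set `X` is at most `|δ(X) ∩ B| + q`.  By Hoffman's theorem there is
an integer flow with the values `2, 3` on the oriented edges outside `F` and with values between
`-3` and `3` on `F`.
-/

universe u v

namespace Pool.Agent.Results.MP_e59a69_co.EvenSubgraphPairing

open Finset Pool.Agent.H160R2.HF Pool.Agent.H884R2.HFP

/-- In every component of `(V, F)` the number of the vertices `v` such that exactly one of the
two statements (the degree of `v` in `G` is odd; `v ∈ U`) holds is even. -/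
def RightParity {V : Type u} {E : Type v} [Fintype V] [Fintype E] [DecidableEq V] [DecidableEq E]
    (G : OrGraph V E) (F : Finset E) (U : Finset V) : Prop :=
  ∀ c : (G.sub F).ConnectedComponent,
    Even (Set.ncard {v | v ∈ c.supp ∧ (Odd (G.deg univ v) ↔ v ∉ U)})

/-- The number of the components of `(V, F)` which contain an odd number of vertices whose degree in
`G` is odd. -/
noncomputable def oddParts {V : Type u} {E : Type v} [Fintype V] [Fintype E] [DecidableEq V]
    [DecidableEq E] (G : OrGraph V E) (F : Finset E) : ℕ :=
  Set.ncard {c : (G.sub F).ConnectedComponent |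
    Odd (Set.ncard {v | v ∈ c.supp ∧ Odd (G.deg univ v)})}

theorem result (V : Type u) (E : Type v) [Fintype V] [Fintype E] [DecidableEq V] [DecidableEq E]
    (G : OrGraph V E) (F : Finset E) (hF : ∀ v, Even (G.deg F v)) :
    (G.Bridgeless → oddParts G F ≤ 2 →
      ((∃ φ₂ φ₄ : E → ℤ, G.IsHalfFlowPair φ₂ φ₄ ∧ ∀ e, φ₂ e ≠ 0 ↔ e ∈ F) ↔
        ∀ X : Finset V, (G.cut X).card = 3 → (G.cut X ∩ F).Nonempty)) ∧
    ∀ (U : Finset V) (τ : V → V), RightParity G F U →
      (∀ u ∈ U, τ u ∈ U ∧ τ (τ u) = u ∧ τ u ≠ u) →
      (∀ X : Finset V, (G.cut X ∩ F).card < 2 * sep U τ X →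
        5 * sep U τ X ≤ (G.cut X).card + 1) →
      ∃ φ₂ φ₄ : E → ℤ, G.IsHalfFlowPair φ₂ φ₄ ∧ ∀ e, φ₂ e ≠ 0 ↔ e ∈ F := by
  refine ⟨fun hB h2 => ⟨?_, fun h3 => ?_⟩, fun U τ hU hτ hq => ?_⟩
  · rintro ⟨φ₂, φ₄, hp, hs⟩ X hX
    exact Pool.Agent.X42.HalfPair.meets_of_pair G hp hs X hX
  · exact Pool.Agent.X42.HalfPair.two_parts G (G.cut_card_ne_one hB) F hF h2 h3
  · exact Pool.Agent.X42.HalfPair.exists_pair G F hF U hU τ hτ hq

end Pool.Agent.Results.MP_e59a69_co.EvenSubgraphPairing
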