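import Pool.Agent.X186.IC.Half

set_option autoImplicit false

/-!
# `1/2`-flow-pairs of graphs with few independent small cuts (MP_e59a69_co)

A bridgeless multigraph has a `1/2`-flow-pair if it has no six pairwise disjoint and pairwise
non-adjacent vertex sets with 3, 5, 7 or 9 boundary edges, in particular if it has no six pairwise
non-adjacent vertices of odd degree.

More generally it suffices that this condition holds when disjoint vertex sets `Y`, each with
exactly three boundary edges and such that contracting the complement of `Y` gives a graph with a
nowhere-zero 4-flow, are contracted to single vertices.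

The map `ρ` below contracts the sets: it is idempotent and each of its classes is a single vertex
or a set `Y` as above.

Proof.  A minimal quotient without nowhere-zero 4-flow has at least 18 vertices of odd degree, has
no triangles and spans at most `2 k - 3` edges on `k` vertices; so it has `a + 1` independent
vertices of small odd degree. Hence there is a nowhere-zero 4-flow, and then Hoffman's theorem gives
the pair, or a partition into ten classes, each with three boundary edges, such that contracting the
classes gives the Petersen graph, and every class has a flow when its complement is contracted.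
Take a `1/2`-flow-pair of the Petersen graph and extend it to the classes one after the other.
-/

namespace Pool.Agent.Results.MP_e59a69_co.IndependentSmallCuts

open Finset Pool.Agent.H160R2.HF Pool.Agent.TH499.NF Pool.Agent.X186.IC

/-- `ρ` maps disjoint vertex sets `Y` to single vertices (chosen in `Y`) and fixes all other
vertices; every `Y` has exactly three boundary edges, and contracting the complement of `Y` gives a
graph with a nowhere-zero 4-flow. -/
def ContractsFlowSides {V E : Type} [Fintype V] [Fintype E] [DecidableEq V] [DecidableEq E]
    (G : OrGraph V E) (ρ : V → V) : Prop :=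
  (∀ x, ρ (ρ x) = ρ x) ∧
    ∀ y, (∀ x, ρ x = y → x = y) ∨
      ((G.cut (univ.filter (fun x => ρ x = y))).card = 3 ∧
        NZ4 (contr G (univ.filter (fun x => ρ x ≠ y))))

/-- Let `G` be a bridgeless multigraph and let `ρ` contract disjoint sides of 3-edge-cuts which have
nowhere-zero 4-flows (`ContractsFlowSides`; nothing is contracted if `ρ` is the identity). Suppose
that for the contracted graph there are a vertex set `U` and numbers `a ≥ 3`, `c ≥ 1` with
`4 a + |U| + ⌊6 / c⌋ ≤ 21` such that there are no `a + 1` pairwise disjoint and pairwise
non-adjacent vertex sets, all of them disjoint from `U`, each with an odd number, at most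
`2 c + 1`, of boundary edges (`IndependentSmallCuts`). Then `G` has a `1/2`-flow-pair. -/
theorem result (V E : Type) [Fintype V] [Fintype E] [DecidableEq V] [DecidableEq E]
    (G : OrGraph V E) (hB : G.Bridgeless) (ρ : V → V) (hρ : ContractsFlowSides G ρ)
    (hI : IndependentSmallCuts (mp G ρ).t (mp G ρ).h) :
    ∃ φ₂ φ₄ : E → ℤ, G.IsHalfFlowPair φ₂ φ₄ :=
  half_final G (G.cut_card_ne_one hB) ρ hρ.1 hρ.2 hI

/-- The case in which nothing is contracted. -/
theorem no_contraction (V E : Type) [Fintype V] [Fintype E] [DecidableEq V] [DecidableEq E]
    (G : OrGraph V E) (hB : G.Bridgeless) (hI : IndependentSmallCuts G.t G.h) :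
    ∃ φ₂ φ₄ : E → ℤ, G.IsHalfFlowPair φ₂ φ₄ :=
  result V E G hB (fun x => x) ⟨fun _ => rfl, fun _ => Or.inl fun _ h => h⟩ hI

end Pool.Agent.Results.MP_e59a69_co.IndependentSmallCuts
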