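import Pool.Agent.X186.IC.Half2

set_option autoImplicit false

/-!
# `1/2`-flow-pairs of graphs with few light small odd cuts or large degree sums (MP_e59a69_co)

A bridgeless multigraph has a `1/2`-flow-pair if it has no seventeen pairwise disjoint vertex sets
with 3, 5, 7 or 9 boundary edges, or more generally no `m ≥ 18` pairwise disjoint vertex sets with
odd numbers of boundary edges whose sum is at most `4 m - 6`; or if it satisfies a degree sum
condition for pairwise non-adjacent vertices.

More generally it suffices that one of these conditions holds when disjoint vertex sets `Y`, each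
with exactly three boundary edges and such that contracting the complement of `Y` gives a graph with
a nowhere-zero 4-flow, are contracted to single vertices.

The map `ρ` below contracts the sets: it is idempotent and each of its classes is a single vertex
or a set `Y` as above.

Proof.  A minimal quotient without nowhere-zero 4-flow has at least 18 vertices of odd degree, has
no triangles and spans at most `2 k - 3` edges on `k` vertices. Hence there is a nowhere-zero
4-flow, and then Hoffman's theorem gives the pair, or a partition into ten classes, each with three
boundary edges, such that contracting the classes gives the Petersen graph, and every class has a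
flow when its complement is contracted. Take a `1/2`-flow-pair of the Petersen graph and extend it
to the classes one after the other.
-/

namespace Pool.Agent.Results.MP_e59a69_co.LightFamilies

open Finset Pool.Agent.H160R2.HF Pool.Agent.TH499.NF Pool.Agent.X186.IC
open Pool.Agent.X42.FewCuts (NoLightFamily)

/-- `ρ` maps disjoint vertex sets `Y` to single vertices (chosen in `Y`) and fixes all other
vertices; every `Y` has exactly three boundary edges, and contracting the complement of `Y` gives a
graph with a nowhere-zero 4-flow. -/
def ContractsFlowSides {V E : Type} [Fintype V] [Fintype E] [DecidableEq V] [DecidableEq E]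
    (G : OrGraph V E) (ρ : V → V) : Prop :=
  (∀ x, ρ (ρ x) = ρ x) ∧
    ∀ y, (∀ x, ρ x = y → x = y) ∨
      ((G.cut (univ.filter (fun x => ρ x = y))).card = 3 ∧
        NZ4 (contr G (univ.filter (fun x => ρ x ≠ y))))

/-- Let `G` be a bridgeless multigraph and let `ρ` contract disjoint sides of 3-edge-cuts which have
nowhere-zero 4-flows (`ContractsFlowSides`; nothing is contracted if `ρ` is the identity). Suppose
that for the contracted graph (A) for any `m ≥ 18` pairwise disjoint vertex sets with odd numbers of
boundary edges these numbers have a sum of more than `4 m - 6` (`NoLightFamily`), or (B) for some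
`r ≤ 4` and some `σ > 9 (r + 1)` every `r + 1` pairwise non-adjacent vertices have numbers of
neighbours with a sum of at least `σ`, and the number `n` of vertices satisfies
`(r + 1) n < k (σ + r + 1)`, where `k = 17, 15, 12, 9, 5` for `r = 0, 1, 2, 3, 4`
(`LargeDegreeSums`). Then `G` has a `1/2`-flow-pair. -/
theorem result (V E : Type) [Fintype V] [Fintype E] [DecidableEq V] [DecidableEq E]
    (G : OrGraph V E) (hB : G.Bridgeless) (ρ : V → V) (hρ : ContractsFlowSides G ρ)
    (hI : NoLightFamily (mp G ρ).t (mp G ρ).h ∨ LargeDegreeSums (mp G ρ).t (mp G ρ).h) :
    ∃ φ₂ φ₄ : E → ℤ, G.IsHalfFlowPair φ₂ φ₄ :=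
  half_final2 G (G.cut_card_ne_one hB) ρ hρ.1 hρ.2 hI

/-- The case in which nothing is contracted. -/
theorem no_contraction (V E : Type) [Fintype V] [Fintype E] [DecidableEq V] [DecidableEq E]
    (G : OrGraph V E) (hB : G.Bridgeless) (hI : NoLightFamily G.t G.h ∨ LargeDegreeSums G.t G.h) :
    ∃ φ₂ φ₄ : E → ℤ, G.IsHalfFlowPair φ₂ φ₄ :=
  result V E G hB (fun x => x) ⟨fun _ => rfl, fun _ => Or.inl fun _ h => h⟩ hI

end Pool.Agent.Results.MP_e59a69_co.LightFamilies
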