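import Pool.Agent.X42.HalfPet

set_option autoImplicit false

/-!
# `1/2`-flow-pairs of graphs with at most sixteen vertices of odd degree (MP_e59a69_co)

Every bridgeless multigraph with at most sixteen vertices of odd degree has a `1/2`-flow-pair.

More generally it suffices that at most sixteen vertices of odd degree are left when disjoint vertex
sets `Y`, each with exactly three boundary edges and such that contracting the complement of `Y`
gives a graph with a nowhere-zero 4-flow, are contracted to single vertices.  The sets `Y` may
contain any number of vertices of odd degree.

The map `ρ` below contracts the sets: it is idempotent and each of its classes is a single vertex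
or a set `Y` as above.

Proof.  By a theorem of the starting library a bridgeless graph with at most sixteen vertices of
odd degree has a nowhere-zero 4-flow or its vertex set has a partition into ten classes, each with
three boundary edges, such that contracting the classes gives the Petersen graph.  In the first case
Hoffman's theorem gives the pair.  In the second case every class contains an odd number of
the odd vertices, so at most seven; the graph in which the complement of a class is contracted has
at most eight odd vertices and therefore a nowhere-zero 4-flow.  Take a `1/2`-flow-pair of the
Petersen graph and extend it to the classes one after the other: in a graph with a nowhere-zero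
4-flow all admissible values at a vertex of degree three extend to a `1/2`-flow-pair.
-/

namespace Pool.Agent.Results.MP_e59a69_co.SixteenOddVertices

open Finset Pool.Agent.H160R2.HF Pool.Agent.TH499.NF

/-- `ρ` maps disjoint vertex sets `Y` to single vertices (chosen in `Y`) and fixes all other
vertices; every `Y` has exactly three boundary edges, and contracting the complement of `Y` gives a
graph with a nowhere-zero 4-flow. -/
def ContractsFlowSides {V E : Type} [Fintype V] [Fintype E] [DecidableEq V] [DecidableEq E]
    (G : OrGraph V E) (ρ : V → V) : Prop :=
  (∀ x, ρ (ρ x) = ρ x) ∧
    ∀ y, (∀ x, ρ x = y → x = y) ∨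
      ((G.cut (univ.filter (fun x => ρ x = y))).card = 3 ∧
        NZ4 (contr G (univ.filter (fun x => ρ x ≠ y))))

theorem result (V E : Type) [Fintype V] [Fintype E] [DecidableEq V] [DecidableEq E]
    (G : OrGraph V E) (hB : G.Bridgeless) (ρ : V → V) (hρ : ContractsFlowSides G ρ)
    (hodd : (univ.filter (fun v => Odd ((mp G ρ).deg univ v))).card ≤ 16) :
    ∃ φ₂ φ₄ : E → ℤ, G.IsHalfFlowPair φ₂ φ₄ :=
  Pool.Agent.X42.HalfPet.final G (G.cut_card_ne_one hB) ρ hρ.1 hρ.2 hodd

/-- The case in which nothing is contracted. -/
theorem sixteen (V E : Type) [Fintype V] [Fintype E] [DecidableEq V] [DecidableEq E]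
    (G : OrGraph V E) (hB : G.Bridgeless)
    (hodd : (univ.filter (fun v => Odd (G.deg univ v))).card ≤ 16) :
    ∃ φ₂ φ₄ : E → ℤ, G.IsHalfFlowPair φ₂ φ₄ :=
  result V E G hB (fun x => x) ⟨fun _ => rfl, fun _ => Or.inl fun _ h => h⟩ hodd

end Pool.Agent.Results.MP_e59a69_co.SixteenOddVertices
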